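import Pool.Agent.W95.EQ.Stm

/-!
# EQM-KAPC
-/
set_option autoImplicit false

open Polynomial Topology Filter MeasureTheory
open scoped ENNReal

namespace Pool.Agent.W202.EQ.KAPC

open Pool.Agent.W95.BK Pool.Agent.W95.EQ

universe u

theorem lam_zero {K : Type u} [NontriviallyNormedField K] (y : BA K) : lam y (0 : K) = y X := by
  simp [lam]

theorem main : S_KERC.{u} → S_ISO.{u} → S_KAPC.{u} := by
  intro hK hI K _ _ _ a s hs
  have h2 : ∀ S : ℝ, 1 ≤ S → s ≤ S → ‖a‖ ≤ S → ∀ x : P1B K,
      kap a s x = ker (0 : K) 1 S x - ker a s S x := by
    intro S hS1 hSs hSa x
    induction x using OnePoint.rec with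
    | infty =>
      show (0 : ℝ) = 0 - 0
      norm_num
    | coe y =>
      show Real.log (max (lam y a) s) - Real.log (max 1 (y X))
        = (Real.log (max (lam y 0) S) - Real.log (max (lam y 0) 1))
          - (Real.log (max (lam y a) S) - Real.log (max (lam y a) s))
      have e1 : max (lam y (0 : K)) S = max (lam y a) S := by
        have i1 := (hI K y 0 a).1
        have i2 := (hI K y a 0).1
        rw [zero_sub, norm_neg] at i1
        rw [sub_zero] at i2
        apply le_antisymm
        · exact max_le (i1.trans (max_le (le_max_left _ _) (hSa.trans (le_max_right _ _))))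
            (le_max_right _ _)
        · exact max_le (i2.trans (max_le (le_max_left _ _) (hSa.trans (le_max_right _ _))))
            (le_max_right _ _)
      rw [e1, lam_zero, max_comm (y X) 1]
      ring
  refine ⟨?_, h2, ?_⟩
  · set S := max 1 (max s ‖a‖) with hS
    have h3 := h2 S (le_max_left _ _) ((le_max_left _ _).trans (le_max_right _ _))
      ((le_max_right _ _).trans (le_max_right _ _))
    have h4 : kap a s = fun x => ker (0 : K) 1 S x - ker a s S x := funext h3
    rw [h4]
    have hS0 : 0 < S := lt_of_lt_of_le one_pos (le_max_left _ _)
    exact (hK K 0 1 S one_pos hS0).sub (hK K a s S hs hS0)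
  · intro x
    set M := max 1 (max ‖a‖ s) with hM
    have hM1 : 1 ≤ M := le_max_left _ _
    have hMa : ‖a‖ ≤ M := (le_max_left _ _).trans (le_max_right _ _)
    have hMs : s ≤ M := (le_max_right _ _).trans (le_max_right _ _)
    have hM0 : 0 < M := lt_of_lt_of_le one_pos hM1
    have hsd : - Real.log (sd a s) = 2 * Real.log M - Real.log s := by
      unfold sd
      rw [← hM, Real.log_div hs.ne' (pow_ne_zero _ hM0.ne'), Real.log_pow]
      push_cast
      ring
    rw [hsd]
    induction x using OnePoint.rec with
    | infty =>
      have e : qk a s (OnePoint.infty : P1B K) = Real.log M - 0 := rfl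
      rw [e]
      constructor
      · have := Real.log_nonneg hM1
        linarith
      · have := Real.log_le_log hs hMs
        linarith
    | coe y =>
      have e : qk a s ((y : BA K) : P1B K)
          = Real.log M - (Real.log (max (lam y a) s) - Real.log (max 1 (y X))) := rfl
      rw [e]
      have i1 := (hI K y 0 a).1
      have i2 := (hI K y a 0).1
      rw [zero_sub, norm_neg] at i1
      rw [sub_zero] at i2
      rw [lam_zero] at i1 i2
      have hl0 : 0 ≤ lam y a := y.nonneg' _
      have hy0 : 0 ≤ y X := y.nonneg' _
      set l := lam y a with hl
      set Y := max 1 (y X) with hY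
      have hY1 : 1 ≤ Y := le_max_left _ _
      have hYy : y X ≤ Y := le_max_right _ _
      have hYp : 0 < Y := lt_of_lt_of_le one_pos hY1
      have hls : 0 < max l s := lt_of_lt_of_le hs (le_max_right _ _)
      constructor
      · have k1 : max l s ≤ M * Y := by
          apply max_le
          · apply i2.trans
            apply max_le
            · nlinarith
            · nlinarith [norm_nonneg a]
          · nlinarith
        have k2 := Real.log_le_log hls k1
        rw [Real.log_mul hM0.ne' hYp.ne'] at k2
        linarith
      · have k1 : s * Y ≤ M * max l s := by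
          have m1 : l ≤ max l s := le_max_left _ _
          have m2 : s ≤ max l s := le_max_right _ _
          rcases le_total (y X) 1 with h | h
          · have : Y = 1 := max_eq_left h
            rw [this]
            nlinarith
          · have hYe : Y = y X := max_eq_right h
            rw [hYe]
            rcases le_total l ‖a‖ with h' | h'
            · rw [max_eq_right h'] at i1
              nlinarith [norm_nonneg a]
            · rw [max_eq_left h'] at i1
              nlinarith [norm_nonneg a]
        have k2 := Real.log_le_log (mul_pos hs hYp) k1
        rw [Real.log_mul hM0.ne' hls.ne', Real.log_mul hs.ne' hYp.ne'] at k2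
        linarith

end Pool.Agent.W202.EQ.KAPC
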